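import Mathlib
import Pool.Agent.H.MP_902c37_an.A

open Set Metric Filter Topology
open scoped ContDiff

namespace Pool.Agent.Results.MP_902c37_an.Counter

/-- Four times the Levi form: the Laplacian along the complex line through `z` in direction `ξ`. -/
noncomputable def lev (φ : ℂ × ℂ → ℝ) (z ξ : ℂ × ℂ) : ℝ :=
  Laplacian.laplacian (fun s : ℂ => φ (z + s • ξ)) 0

/-- The core of a domain. -/
def core (D : Set (ℂ × ℂ)) : Set (ℂ × ℂ) :=
  {z ∈ D | ¬∃ φ : ℂ × ℂ → ℝ, ContDiffOn ℝ ∞ φ D ∧ (∀ x ∈ D, ∀ ξ, 0 ≤ lev φ x ξ) ∧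
    BddAbove (φ '' D) ∧ ∀ ξ ≠ 0, 0 < lev φ z ξ}

open H.MP_902c37_an H.MP_752b71_an

def Ω : Set (ℂ × ℂ) := {q | ‖q.2‖ < 1 ∧ ‖q.1 * q.2‖ < 1 ∧ (q.2 ≠ 0 ∨ ‖q.1‖ < 1)}

lemma Ω_open : IsOpen Ω := by
  refine IsOpen.and (isOpen_lt (by fun_prop) (by fun_prop))
    (IsOpen.and (isOpen_lt (by fun_prop) (by fun_prop)) ?_)
  exact (isOpen_ne_fun continuous_snd continuous_const).union
    (isOpen_lt continuous_fst.norm continuous_const)

lemma ball_sub : ball 0 1 ⊆ Ω := fun q hq => by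
  rw [mem_ball_zero_iff, Prod.norm_def, max_lt_iff] at hq
  exact ⟨hq.2, by rw [norm_mul]; nlinarith [norm_nonneg q.1, norm_nonneg q.2], .inr hq.1⟩

lemma Ω_conn : IsConnected Ω := by
  refine (StarConvex.isPathConnected (a := 0) ?_ (ball_sub (by simp))).isConnected
  rw [starConvex_zero_iff]
  intro q hq a h0 h1
  obtain ⟨a1, a2, a3⟩ := hq
  have n : ∀ w : ℂ, ‖a • w‖ ≤ ‖w‖ := fun w => by
    rw [norm_smul, Real.norm_of_nonneg h0]; exact mul_le_of_le_one_left (norm_nonneg _) h1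
  refine ⟨(n _).trans_lt a1, lt_of_le_of_lt ?_ a2, ?_⟩
  · simp only [norm_mul]; exact mul_le_mul (n _) (n _) (norm_nonneg _) (norm_nonneg _)
  · rcases h0.eq_or_lt with rfl | h
    · simp
    · exact a3.imp (smul_ne_zero h.ne') (n _).trans_lt

lemma sq (w : ℂ) : w.re ^ 2 + w.im ^ 2 = ‖w‖ ^ 2 := by
  rw [Complex.sq_norm, Complex.normSq_apply]; ring

lemma test {D : Set (ℂ × ℂ)} {z : ℂ × ℂ} (F : Fin 2 → ℂ × ℂ → ℂ) (hF : ∀ m, ContDiff ℂ ω (F m))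
    (hb : ∀ m, ∀ x ∈ D, ‖F m x‖ ≤ 1)
    (hz : ∀ ξ ≠ 0, ∃ m, deriv (fun s : ℂ => F m (z + s • ξ)) 0 ≠ 0) : z ∉ core D := by
  have e : ∀ x ξ, lev (fun q => ∑ m, ((F m q).re ^ 2 + (F m q).im ^ 2)) x ξ =
      4 * ∑ m, ‖deriv (fun s : ℂ => F m (x + s • ξ)) 0‖ ^ 2 := fun x ξ =>
    lapN (g := fun m s => F m (x + s • ξ)) fun m =>
      ((hF m).comp (by fun_prop : ContDiff ℂ ω fun s : ℂ => x + s • ξ)).contDiffAt.analyticAt
  refine fun h => h.2 ⟨fun q => ∑ m, ((F m q).re ^ 2 + (F m q).im ^ 2), ContDiff.contDiffOn ?_,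
    fun x _ ξ => by rw [e]; positivity, ⟨2, ?_⟩, fun ξ hξ => ?_⟩
  · refine ContDiff.sum fun m _ => ?_
    have h : ContDiff ℝ ∞ (F m) := ((hF m).restrict_scalars ℝ).of_le le_top
    exact ((Complex.reCLM.contDiff.comp h).pow 2).add ((Complex.imCLM.contDiff.comp h).pow 2)
  · rintro _ ⟨x, hx, rfl⟩
    simp only [sq, Fin.sum_univ_two]
    nlinarith [hb 0 x hx, hb 1 x hx, norm_nonneg (F 0 x), norm_nonneg (F 1 x)]
  · obtain ⟨m, hm⟩ := hz ξ hξ
    rw [e]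
    exact mul_pos four_pos (Finset.sum_pos' (fun _ _ => by positivity)
      ⟨m, Finset.mem_univ _, pow_pos (norm_pos_iff.2 hm) 2⟩)

lemma zero_mem : 0 ∈ core Ω := by
  refine ⟨ball_sub (by simp), fun ⟨φ, h1, h2, ⟨M, hM⟩, h4⟩ => ?_⟩
  have sl : ∀ z w : ℂ, (z, w) ∈ Ω → ContDiffAt ℝ 2 (fun z => φ (z, w)) z := fun z w h =>
    ((h1.contDiffAt (Ω_open.mem_nhds h)).of_le (by norm_cast)).comp z
      (f := fun z : ℂ => (z, w)) (by fun_prop)
  have sh : ∀ z w : ℂ, lev φ (z, w) (1, 0) = Laplacian.laplacian (fun z => φ (z, w)) z :=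
    fun z w => by
      have := fun n => iteratedFDeriv_comp_add_left (𝕜 := ℝ) (f := fun z => φ (z, w)) n z 0
      simp only [add_zero] at this
      simp [lev, InnerProductSpace.laplacian_eq_iteratedFDeriv_complexPlane, this]
  have m0 : ((0 : ℂ), (0 : ℂ)) ∈ Ω := ball_sub (by simp)
  obtain ⟨z, hz, hz'⟩ : ∃ z : ℂ, ‖z‖ < 1 ∧ φ (0, 0) < φ (z, 0) := by
    by_contra h
    push Not at h
    have := locmax (sl 0 0 m0) (by
      filter_upwards [ball_mem_nhds (0:ℂ) one_pos] with z hz using h z (mem_ball_zero_iff.1 hz))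
    rw [← sh] at this
    exact (h4 (1, 0) (by simp)).not_ge this
  set κ := (φ (z, 0) - φ (0, 0)) / 3 with hκ
  have k0 : 0 < κ := by rw [hκ]; linarith
  have z0 : 0 < ‖z‖ := norm_pos_iff.2 fun e => by rw [e] at hz'; exact hz'.false
  have mz : (z, (0 : ℂ)) ∈ Ω := ball_sub (by simpa using hz)
  have c0 := (h1.continuousOn.continuousAt (Ω_open.mem_nhds m0)).eventually
    (gt_mem_nhds (show φ (0, 0) < φ (0, 0) + κ by linarith))
  obtain ⟨δ, d0, hδ⟩ := Metric.eventually_nhds_iff.1 c0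
  have c1 : ∀ᶠ w : ℝ in 𝓝 0, φ (0, 0) + 2 * κ < φ (z, w) := by
    have : Tendsto (fun w : ℝ => ((z, w) : ℂ × ℂ)) (𝓝 0) (𝓝 (z, 0)) := by
      simpa using Continuous.tendsto (f := fun w : ℝ => ((z, w) : ℂ × ℂ)) (by fun_prop) 0
    exact ((h1.continuousOn.continuousAt (Ω_open.mem_nhds mz)).tendsto.comp this).eventually
      (lt_mem_nhds (by linarith))
  set ρ := min δ ‖z‖ / 2 with hρ
  have r0 : 0 < ρ := by positivity
  have r1 : ρ < δ := by linarith [min_le_left δ ‖z‖]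
  have r2 : ρ < ‖z‖ := by linarith [min_le_right δ ‖z‖]
  set A := φ (0, 0) + κ
  have hA : A ≤ M := by linarith [hM ⟨_, mz, rfl⟩]
  have t1 : Tendsto (fun w : ℝ => (M - A) / Real.log ((1 / 2 * w⁻¹) / ρ) * Real.log (‖z‖ / ρ))
      (𝓝[>] 0) (𝓝 0) := by
    have := (Real.tendsto_log_atTop.comp ((tendsto_inv_nhdsGT_zero.const_mul_atTop
      (show (0:ℝ) < 1 / 2 by norm_num)).atTop_div_const r0)).const_div_atTop (M - A)
    simpa using this.mul_const (Real.log (‖z‖ / ρ))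
  have c2 : ∀ᶠ w : ℝ in 𝓝[>] 0, 0 < w := self_mem_nhdsWithin
  have c3 : ∀ᶠ w : ℝ in 𝓝[>] 0, w < min δ (1 / 2) :=
    nhdsWithin_le_nhds (gt_mem_nhds (lt_min d0 (show (0:ℝ) < 1 / 2 by norm_num)))
  obtain ⟨w, w1, w2, w3, w4⟩ := ((t1.eventually (gt_mem_nhds k0)).and
    ((c1.filter_mono nhdsWithin_le_nhds).and (c2.and c3))).exists
  rw [lt_min_iff] at w4
  have nw : ‖(w : ℂ)‖ = w := by simp [abs_of_pos w3]
  have R1 : 1 < 1 / 2 * w⁻¹ := by
    rw [← div_eq_mul_inv, lt_div_iff₀ w3]; linarith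
  have := three (u := fun z => φ (z, w)) r0 (show ρ < 1 / 2 * w⁻¹ by linarith) hA (fun y hy => by
    have m : (y, (w : ℂ)) ∈ Ω := by
      refine ⟨by rw [nw]; linarith, ?_, .inl (Complex.ofReal_ne_zero.2 w3.ne')⟩
      rw [norm_mul, nw]
      rw [← div_eq_mul_inv, le_div_iff₀ w3] at hy
      linarith
    exact ⟨sl _ _ m, sh _ _ ▸ h2 _ m _, hM ⟨_, m, rfl⟩⟩) (fun y hy => (hδ (by
      rw [Prod.dist_eq, dist_zero_right, dist_zero_right, nw, hy]
      exact max_lt r1 w4.1)).le) r2.le (by linarith)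
  simp only [A] at this w1
  linarith

theorem result : ∃ Ω D : Set (ℂ × ℂ), IsOpen Ω ∧ IsConnected Ω ∧ IsOpen D ∧ IsConnected D ∧
    D ⊆ Ω ∧ core Ω ⊆ D ∧ core D ≠ core Ω := by
  refine ⟨Ω, ball 0 1, Ω_open, Ω_conn, isOpen_ball, (convex_ball 0 1).isConnected ⟨0, by simp⟩,
    ball_sub, fun q hq => ?_, fun h => ?_⟩
  · by_cases h : q.2 = 0
    · rw [mem_ball_zero_iff, Prod.norm_def]
      exact max_lt (hq.1.2.2.resolve_left (not_not.2 h)) hq.1.1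
    refine absurd hq (test ![fun q => q.2, fun q => q.1 * q.2]
      (fun m => by fin_cases m <;> simp <;> fun_prop)
      (fun m x hx => by fin_cases m; exacts [hx.1.le, hx.2.1.le]) fun ξ hξ => ?_)
    by_cases h2 : ξ.2 = 0
    · have h1 : ξ.1 ≠ 0 := fun e => hξ (Prod.ext e h2)
      exact ⟨1, by simp [h2, h, h1]⟩
    · exact ⟨0, by simp [h2]⟩
  · refine test ![fun q => q.1, fun q => q.2] (fun m => by fin_cases m <;> simp <;> fun_prop)
      (fun m x hx => ?_) (fun ξ hξ => ?_) (h ▸ zero_mem)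
    · rw [mem_ball_zero_iff, Prod.norm_def, max_lt_iff] at hx
      fin_cases m; exacts [hx.1.le, hx.2.le]
    · by_cases h2 : ξ.2 = 0
      · have h1 : ξ.1 ≠ 0 := fun e => hξ (Prod.ext e h2)
        exact ⟨0, by simp [h1]⟩
      · exact ⟨1, by simp [h2]⟩

end Pool.Agent.Results.MP_902c37_an.Counter
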